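import Pool.Agent.Helper37.BP.SysDefs

/-! Part COMB of the blueprint for MP_6f6997_an: the two families of equivalence relations on the
levels of the binary tree. -/

namespace Pool.Agent.Helper6.BAP

open Pool.Agent.Helper37.BP

/-- the bit of `h` at position `i`, zero outside of the range -/
def bit {k : ℕ} (h : Sg k) (i : ℕ) : ℕ := if hi : i < k then (h ⟨i, hi⟩).toNat else 0

theorem bit_lt {k : ℕ} (h : Sg k) (i : ℕ) : bit h i < 2 := by
  unfold bit
  split
  · exact Bool.toNat_lt _
  · norm_num

/-- the label of a node -/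
def lab {k : ℕ} (h : Sg k) : ℕ := 4 * (k % 3) + 2 * bit h (k - 2) + bit h (k - 1)

theorem lab_lt {k : ℕ} (h : Sg k) : lab h < 12 := by
  unfold lab
  have h1 := bit_lt h (k - 2)
  have h2 := bit_lt h (k - 1)
  omega

theorem lab_div {k : ℕ} (h : Sg k) : lab h / 4 = k % 3 := by
  unfold lab
  have h1 := bit_lt h (k - 2)
  have h2 := bit_lt h (k - 1)
  omega

/-- the class of `h`: the positions in `P` are free -/
def cls {k : ℕ} (P : ℕ → Prop) [DecidablePred P] (h : Sg k) : Finset (Sg k) :=
  Fintype.piFinset fun i : Fin k => if P i then Finset.univ else {h i}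

theorem mem_cls {k : ℕ} (P : ℕ → Prop) [DecidablePred P] (h h' : Sg k) :
    h' ∈ cls P h ↔ ∀ i : Fin k, ¬ P i → h' i = h i := by
  unfold cls
  rw [Fintype.mem_piFinset]
  refine forall_congr' fun i => ?_
  by_cases hp : P i
  · simp [hp]
  · simp [hp]

theorem card_cls {k : ℕ} (P : ℕ → Prop) [DecidablePred P] (h : Sg k) (n : ℕ) (hn : n ≤ k)
    (hP : ∀ i, P i → i < n) : (cls P h).card = 2 ^ (Nat.count P n) := by
  unfold cls
  rw [Fintype.card_piFinset]
  have e : ∀ i : Fin k, (if P i then (Finset.univ : Finset Bool) else {h i}).card =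
      if P i then 2 else 1 := by
    intro i
    by_cases hp : P i
    · simp [hp]
    · simp [hp]
  rw [Finset.prod_congr rfl fun i _ => e i, Finset.prod_ite, Finset.prod_const, Finset.prod_const,
    one_pow, mul_one, Nat.count_eq_card_filter_range]
  congr 1
  rw [← Finset.card_map Fin.valEmbedding]
  congr 1
  ext i
  simp only [Finset.mem_map, Finset.mem_filter, Finset.mem_univ, true_and, Finset.mem_range,
    Fin.valEmbedding_apply]
  constructor
  · rintro ⟨j, hj, rfl⟩
    exact ⟨hP _ hj, hj⟩
  · rintro ⟨h1, h2⟩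
    exact ⟨⟨i, lt_of_lt_of_le h1 hn⟩, h2, rfl⟩

theorem count_eq (L : ℕ) (hL : L < 12) (D : ℕ) :
    Nat.count (fun i => i % 12 = L) (12 * D) = D := by
  induction D with
  | zero => simp
  | succ D ih =>
    rw [Nat.mul_succ, Nat.count_add, ih]
    congr 1
    have e : (fun k => (12 * D + k) % 12 = L) = fun k => k % 12 = L := by
      funext k
      rw [Nat.mul_add_mod]
    simp only [e]
    interval_cases L <;> decide

theorem count_ne (L : ℕ) (hL : L < 12) (D : ℕ) :
    Nat.count (fun i => i % 12 ≠ L) (12 * D) = 11 * D := by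
  induction D with
  | zero => simp
  | succ D ih =>
    rw [Nat.mul_succ, Nat.count_add, ih, Nat.mul_succ]
    congr 1
    have e : (fun k => (12 * D + k) % 12 ≠ L) = fun k => k % 12 ≠ L := by
      funext k
      rw [Nat.mul_add_mod]
    simp only [e]
    interval_cases L <;> decide

theorem count_and (P : ℕ → Prop) [DecidablePred P] (n : ℕ) :
    Nat.count (fun i => i < n ∧ P i) n = Nat.count P n := by
  rw [Nat.count_eq_card_filter_range, Nat.count_eq_card_filter_range]
  congr 1
  refine Finset.filter_congr fun i hi => ?_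
  rw [Finset.mem_range] at hi
  simp [hi]

/-- the free positions of the first relation -/
def PA (k L : ℕ) : ℕ → Prop := fun i => i < 12 * ((k - 4) / 12) ∧ i % 12 ≠ L

/-- the free positions of the second relation -/
def PB (k L : ℕ) : ℕ → Prop := fun i => i < 12 * ((k - 6) / 12) ∧ i % 12 = L

instance (k L : ℕ) : DecidablePred (PA k L) := fun i => by unfold PA; infer_instance

instance (k L : ℕ) : DecidablePred (PB k L) := fun i => by unfold PB; infer_instance

theorem lab_congr {k : ℕ} (h h' : Sg k) (n : ℕ) (hn : n ≤ k - 2)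
    (hh : ∀ i : Fin k, n ≤ i → h' i = h i) : lab h' = lab h := by
  have e : ∀ i, n ≤ i → bit h' i = bit h i := by
    intro i hi
    unfold bit
    by_cases hk : i < k
    · rw [dif_pos hk, dif_pos hk, hh ⟨i, hk⟩ hi]
    · rw [dif_neg hk, dif_neg hk]
  unfold lab
  rw [e (k - 2) hn, e (k - 1) (by omega)]

theorem cls_eq {k : ℕ} (P : ℕ → Prop) [DecidablePred P] (h h' : Sg k) (hh : h' ∈ cls P h) :
    cls P h' = cls P h := by
  rw [mem_cls] at hh
  ext x
  rw [mem_cls, mem_cls]
  exact forall_congr' fun i => forall_congr' fun hi => by rw [hh i hi]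

theorem bit_ch_lt {k : ℕ} (h : Sg k) (c : Bool) (i : ℕ) (hi : i < k) :
    bit (ch h c) i = bit h i := by
  unfold bit
  rw [dif_pos hi, dif_pos (by omega)]
  have : (⟨i, by omega⟩ : Fin (k + 1)) = Fin.castSucc ⟨i, hi⟩ := rfl
  rw [this]
  unfold ch
  rw [Fin.snoc_castSucc (α := fun _ => Bool)]

theorem bit_ch_last {k : ℕ} (h : Sg k) (c : Bool) : bit (ch h c) k = c.toNat := by
  unfold bit
  rw [dif_pos (by omega)]
  have : (⟨k, by omega⟩ : Fin (k + 1)) = Fin.last k := rfl
  rw [this, ch_last]

theorem lab_ch_ch {k : ℕ} (h : Sg k) (c c' : Bool) :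
    lab (ch (ch h c) c') = 4 * ((k + 2) % 3) + 2 * c.toNat + c'.toNat := by
  unfold lab
  have e1 : k + 1 + 1 - 2 = k := by omega
  have e2 : k + 1 + 1 - 1 = k + 1 := by omega
  rw [e1, e2, bit_ch_last, bit_ch_lt _ _ _ (by omega), bit_ch_last]

/-- the coordinates of the two trees agree outside of a set -/
theorem ch_agree {k : ℕ} (Q : ℕ → Prop) (h h' : Sg k) (c : Bool)
    (hh : ∀ i : Fin k, ¬ Q i → h' i = h i) :
    ∀ i : Fin (k + 1), ¬ Q i → ch h' c i = ch h c i := by
  intro i
  refine Fin.lastCases ?_ (fun i => ?_) i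
  · intro _
    rw [ch_last, ch_last]
  · intro hi
    unfold ch
    rw [Fin.snoc_castSucc (α := fun _ => Bool), Fin.snoc_castSucc (α := fun _ => Bool)]
    exact hh i hi

theorem ch_agree_of {k : ℕ} (Q : ℕ → Prop) (h h' : Sg k) (c c' : Bool)
    (hh : ∀ i : Fin (k + 1), ¬ Q i → ch h' c' i = ch h c i) :
    (¬ Q k → c' = c) ∧ ∀ i : Fin k, ¬ Q i → h' i = h i := by
  constructor
  · intro hk
    have := hh (Fin.last k) (by simpa using hk)
    rwa [ch_last, ch_last] at this
  · intro i hi
    have := hh i.castSucc (by simpa using hi)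
    unfold ch at this
    rwa [Fin.snoc_castSucc (α := fun _ => Bool), Fin.snoc_castSucc (α := fun _ => Bool)] at this

theorem tree_exists : Nonempty Tree := by
  refine ⟨{
    A := fun k h => cls (PA k (lab h)) h
    B := fun k j => cls (PB k (lab j)) j
    m := fun k => 2 ^ (11 * ((k - 4) / 12))
    b := fun k => 2 ^ ((k - 6) / 12)
    A_self := ?_
    A_eq := ?_
    A_card := ?_
    B_self := ?_
    B_eq := ?_
    B_card := ?_
    m_mono := ?_
    m_le := ?_
    b_ge := ?_
    sep := ?_
    rel := ?_ }⟩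
  · intro k h
    rw [mem_cls]
    exact fun i _ => rfl
  · intro k h h' hh
    have hl : lab h' = lab h := by
      rw [mem_cls] at hh
      refine lab_congr h h' (12 * ((k - 4) / 12)) (by omega) fun i hi => hh i ?_
      unfold PA
      omega
    simp only [hl]
    exact cls_eq _ h h' hh
  · intro k h
    rw [card_cls _ h (12 * ((k - 4) / 12)) (by omega) (fun i hi => hi.1)]
    congr 1
    refine Eq.trans ?_ (count_ne (lab h) (lab_lt h) ((k - 4) / 12))
    exact count_and (fun i => i % 12 ≠ lab h) _
  · intro k h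
    rw [mem_cls]
    exact fun i _ => rfl
  · intro k h h' hh
    have hl : lab h' = lab h := by
      rw [mem_cls] at hh
      refine lab_congr h h' (12 * ((k - 6) / 12)) (by omega) fun i hi => hh i ?_
      unfold PB
      omega
    simp only [hl]
    exact cls_eq _ h h' hh
  · intro k h
    rw [card_cls _ h (12 * ((k - 6) / 12)) (by omega) (fun i hi => hi.1)]
    congr 1
    refine Eq.trans ?_ (count_eq (lab h) (lab_lt h) ((k - 6) / 12))
    exact count_and (fun i => i % 12 = lab h) _
  · intro k
    exact Nat.pow_le_pow_right (by norm_num) (by omega)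
  · intro k
    show 2 ^ (11 * ((k + 1 - 4) / 12)) ≤ 2 ^ 11 * 2 ^ (11 * ((k - 4) / 12))
    rw [← pow_add]
    exact Nat.pow_le_pow_right (by norm_num) (by omega)
  · intro k
    show 2 ^ k ≤ 2 ^ 18 * (2 ^ ((k - 6) / 12)) ^ 12
    rw [← pow_mul, ← pow_add]
    exact Nat.pow_le_pow_right (by norm_num) (by omega)
  · intro k j j' h1 h2
    rw [mem_cls] at h1 h2
    funext i
    by_cases hi : PB k (lab j) i
    · refine h2 i ?_
      unfold PA
      unfold PB at hi
      tauto
    · exact h1 i hi
  · intro k h h' c₁ c₂ c₁' c₂' hB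
    rw [mem_cls] at hB
    obtain ⟨g1, g2⟩ := ch_agree_of _ _ _ _ _ hB
    obtain ⟨g3, g4⟩ := ch_agree_of _ _ _ _ _ g2
    have n1 : ¬ PB (k + 2) (lab (ch (ch h c₁) c₂)) (k + 1) := by
      unfold PB
      omega
    have n2 : ¬ PB (k + 2) (lab (ch (ch h c₁) c₂)) k := by
      unfold PB
      omega
    refine ⟨g3 n2, g1 n1, ?_, ?_, ?_⟩
    · intro c
      rw [mem_cls]
      have := ch_agree _ _ _ c g4
      intro i hi
      refine this i fun hq => hi ?_
      have hd := lab_div (ch h c)
      have hd2 := lab_div (ch (ch h c₁) c₂)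
      unfold PB at hq
      unfold PA
      refine ⟨by omega, ?_⟩
      rw [hq.2]
      intro he
      rw [he] at hd2
      omega
    · intro c c' hc
      rw [mem_cls]
      have := ch_agree _ _ _ c' (ch_agree _ _ _ c g4)
      intro i hi
      refine this i fun hq => hi ?_
      unfold PB at hq
      unfold PA
      refine ⟨by omega, ?_⟩
      rw [hq.2, lab_ch_ch, lab_ch_ch]
      intro he
      apply hc
      revert he
      cases c <;> cases c' <;> cases c₁ <;> cases c₂ <;> simp <;> omega
    · intro c c'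
      rw [mem_cls]
      have := ch_agree _ _ _ c' (ch_agree _ _ _ c (ch_agree _ _ _ c₁ g4))
      intro i hi
      refine this i fun hq => hi ?_
      have hd := lab_div (ch (ch (ch h c₁) c) c')
      have hd2 := lab_div (ch (ch h c₁) c₂)
      unfold PB at hq
      unfold PA
      refine ⟨by omega, ?_⟩
      rw [hq.2]
      intro he
      rw [he] at hd2
      omega

end Pool.Agent.Helper6.BAP
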